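import Pool.Agent.Helper26.Gap.Main

set_option autoImplicit false

open Pool.Agent.Helper26.Gap

/-- Assume the P-ideal dichotomy and Martin's axiom.  Then every `(ω₁, ω₁)`-gap is weakly
levelwise-inseparable. -/
theorem Pool.Agent.Results.MP_efc74d_lc.PidMaWli.result
    (hPID : PID) (hMA : MA) (L R : Ordinal.{0} → Set ℕ)
    (hL : AlmostIncreasing L) (hR : AlmostIncreasing R) (hgap : IsGap L R) : WLI L R :=
  wli_of_ma hPID hMA hL hR hgap
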